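import Mathlib

set_option autoImplicit false

namespace Pool.Agent.Results.MP_6bb0fd_an.NotMonotone

open Polynomial Finset

/-- A real polynomial is hyperbolic if it is zero or all its complex zeros are real. -/
def Hyperbolic (p : ℝ[X]) : Prop := p = 0 ∨ ∀ z : ℂ, aeval z p = 0 → z.im = 0

/-- `T` is the differential operator `∑ k, Q k * D ^ k` (a finite sum on every polynomial). -/
def IsSeries (T : ℝ[X] →ₗ[ℝ] ℝ[X]) (Q : ℕ → ℝ[X]) : Prop :=
  ∀ p : ℝ[X], T p = ∑ k ∈ range (p.natDegree + 1), Q k * derivative^[k] p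

/-- coefficients of `cos`. -/
noncomputable def c (k : ℕ) : ℝ := (Complex.I ^ k).re / (k.factorial : ℝ)

/-- coefficients of `(x - D) cos D`. -/
noncomputable def Q : ℕ → ℝ[X]
  | 0 => C (c 0) * X
  | (k + 1) => C (c (k + 1)) * X - C (c k)

theorem sum_ext (a : ℕ → ℝ[X]) (p : ℝ[X]) (N : ℕ) (hN : p.natDegree + 1 ≤ N) :
    ∑ k ∈ range (p.natDegree + 1), a k * derivative^[k] p
      = ∑ k ∈ range N, a k * derivative^[k] p := by
  apply Finset.sum_subset
  · intro k hk
    simp only [mem_range] at hk ⊢
    omega
  · intro k _ hk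
    simp only [mem_range, not_lt] at hk
    rw [iterate_derivative_eq_zero (by omega), mul_zero]

/-- The operator with a given coefficient sequence. -/
noncomputable def op (a : ℕ → ℝ[X]) : ℝ[X] →ₗ[ℝ] ℝ[X] where
  toFun p := ∑ k ∈ range (p.natDegree + 1), a k * derivative^[k] p
  map_add' p q := by
    have h1 := natDegree_add_le p q
    rw [sum_ext a (p + q) (max p.natDegree q.natDegree + 1) (by omega),
      sum_ext a p (max p.natDegree q.natDegree + 1) (by omega),
      sum_ext a q (max p.natDegree q.natDegree + 1) (by omega), ← Finset.sum_add_distrib]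
    apply Finset.sum_congr rfl
    intro k _
    rw [iterate_map_add, mul_add]
  map_smul' r p := by
    have h1 := natDegree_smul_le r p
    rw [sum_ext a (r • p) (p.natDegree + 1) (by omega)]
    simp only [RingHom.id_apply]
    rw [Finset.smul_sum]
    apply Finset.sum_congr rfl
    intro k _
    rw [iterate_derivative_smul, mul_smul_comm]

theorem op_apply (a : ℕ → ℝ[X]) (p : ℝ[X]) (N : ℕ) (hN : p.natDegree + 1 ≤ N) :
    op a p = ∑ k ∈ range N, a k * derivative^[k] p := sum_ext a p N hN

/-- `cos D`. -/
noncomputable def cosD : ℝ[X] →ₗ[ℝ] ℝ[X] := op (fun k => C (c k))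

theorem T_eq (p : ℝ[X]) : op Q p = X * cosD p - derivative (cosD p) := by
  rw [op_apply Q p (p.natDegree + 2) (by omega), cosD, Finset.sum_range_succ',
    op_apply _ p (p.natDegree + 1) (by omega), derivative_sum]
  have h1 : ∀ k, derivative (C (c k) * derivative^[k] p) = C (c k) * derivative^[k+1] p := by
    intro k
    rw [derivative_C_mul, Function.iterate_succ_apply']
  simp only [h1]
  have h2 : ∀ k, Q (k + 1) * derivative^[k + 1] p
      = X * (C (c (k+1)) * derivative^[k+1] p) - C (c k) * derivative^[k+1] p := by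
    intro k; simp only [Q]; ring
  simp only [h2]
  rw [Finset.sum_sub_distrib]
  have h3 : X * ∑ k ∈ range (p.natDegree + 1), C (c k) * derivative^[k] p
      = ∑ k ∈ range (p.natDegree + 1), X * (C (c (k+1)) * derivative^[k+1] p)
        + X * (C (c 0) * derivative^[0] p) := by
    rw [← sum_ext (fun k => C (c k)) p (p.natDegree + 1) le_rfl,
      sum_ext (fun k => C (c k)) p (p.natDegree + 2) (by omega), Finset.mul_sum,
      Finset.sum_range_succ']
  rw [h3]
  simp only [Q]
  ring

theorem aeval_cosD (p : ℝ[X]) (z : ℂ) :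
    aeval z (cosD p) = (aeval (z + Complex.I) p + aeval (z - Complex.I) p) / 2 := by
  have key : ∀ w : ℂ, aeval (z + w) p
      = ∑ k ∈ range (p.natDegree + 1), (aeval z (derivative^[k] p)) / (k.factorial : ℂ) * w ^ k := by
    intro w
    have h1 : aeval (z + w) p = (taylor z (p.map (algebraMap ℝ ℂ))).eval w := by
      rw [taylor_eval, aeval_def, eval_map, add_comm]
    rw [h1, eval_eq_sum_range' (n := p.natDegree + 1)]
    · apply Finset.sum_congr rfl
      intro k _
      rw [taylor_coeff]
      congr 1
      have h2 := congrFun (factorial_smul_hasseDeriv (R := ℂ) k) (p.map (algebraMap ℝ ℂ))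
      have h3 : (k.factorial : ℂ) * (hasseDeriv k (p.map (algebraMap ℝ ℂ))).eval z
          = aeval z (derivative^[k] p) := by
        rw [aeval_def, ← eval_map, ← iterate_derivative_map, ← h2]
        simp
      have h4 : (k.factorial : ℂ) ≠ 0 := by exact_mod_cast k.factorial_ne_zero
      rw [← h3]
      field_simp
    · rw [natDegree_taylor]
      have := natDegree_map_le (f := algebraMap ℝ ℂ) (p := p)
      omega
  have hm : z - Complex.I = z + (-Complex.I) := by ring
  rw [hm, key Complex.I, key (-Complex.I), cosD, op_apply _ p (p.natDegree + 1) le_rfl, map_sum,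
    ← Finset.sum_add_distrib, Finset.sum_div]
  apply Finset.sum_congr rfl
  intro k _
  rw [map_mul, aeval_C]
  have h5 : ((Complex.I ^ k).re : ℂ) = (Complex.I ^ k + (-Complex.I) ^ k) / 2 := by
    have : (-Complex.I) ^ k = (starRingEnd ℂ) (Complex.I ^ k) := by
      rw [map_pow, Complex.conj_I]
    rw [this, Complex.re_eq_add_conj]
  simp only [c, Complex.coe_algebraMap]
  push_cast
  rw [h5]
  ring

theorem splits_of_hyperbolic {p : ℝ[X]} (hp : Hyperbolic p) : p.Splits := by
  rcases hp with rfl | hp
  · exact Splits.zero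
  apply Splits.of_splits_map (algebraMap ℝ ℂ) (IsAlgClosed.splits _)
  intro a ha
  have h1 : aeval a p = 0 := by
    have := isRoot_of_mem_roots ha
    rwa [IsRoot.def, eval_map, ← aeval_def] at this
  have h2 := hp a h1
  refine ⟨a.re, ?_⟩
  apply Complex.ext
  · simp
  · simp [h2]

theorem aeval_eq_of_splits {p : ℝ[X]} (hp : p.Splits) (z : ℂ) :
    aeval z p = (p.leadingCoeff : ℂ) * (p.roots.map (fun r : ℝ => z - (r : ℂ))).prod := by
  conv_lhs => rw [hp.eq_prod_roots]
  rw [map_mul, aeval_C, map_multiset_prod, Multiset.map_map]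
  simp [Function.comp_def]

theorem norm_le_aux (s : Multiset ℝ) (z : ℂ) (hz : 0 < z.im) :
    ‖(s.map (fun r : ℝ => z - Complex.I - (r : ℂ))).prod‖
      ≤ ‖(s.map (fun r : ℝ => z + Complex.I - (r : ℂ))).prod‖ ∧
    (s ≠ 0 → ‖(s.map (fun r : ℝ => z - Complex.I - (r : ℂ))).prod‖
      < ‖(s.map (fun r : ℝ => z + Complex.I - (r : ℂ))).prod‖) := by
  have h1 : ∀ r : ℝ, ‖z - Complex.I - (r : ℂ)‖ < ‖z + Complex.I - (r : ℂ)‖ := by
    intro r
    rw [← sq_lt_sq₀ (norm_nonneg _) (norm_nonneg _), ← Complex.normSq_eq_norm_sq,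
      ← Complex.normSq_eq_norm_sq, Complex.normSq_apply, Complex.normSq_apply]
    simp
    nlinarith
  induction s using Multiset.induction_on with
  | empty => simp
  | cons r s ih =>
    have hlt : ‖((r ::ₘ s).map (fun r : ℝ => z - Complex.I - (r : ℂ))).prod‖
      < ‖((r ::ₘ s).map (fun r : ℝ => z + Complex.I - (r : ℂ))).prod‖ := by
      rw [Multiset.map_cons, Multiset.prod_cons, Multiset.map_cons, Multiset.prod_cons,
        norm_mul, norm_mul]
      have h3 : 0 < ‖(s.map (fun r : ℝ => z + Complex.I - (r : ℂ))).prod‖ := by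
        rw [norm_pos_iff]
        apply Multiset.prod_ne_zero
        intro h
        obtain ⟨t, _, ht⟩ := Multiset.mem_map.mp h
        have := congrArg Complex.im ht
        simp at this
        linarith
      calc _ ≤ ‖z - Complex.I - (r : ℂ)‖ * ‖(s.map (fun r : ℝ => z + Complex.I - (r : ℂ))).prod‖ := by
            apply mul_le_mul_of_nonneg_left ih.1 (norm_nonneg _)
        _ < _ := mul_lt_mul_of_pos_right (h1 r) h3
    exact ⟨hlt.le, fun _ => hlt⟩

theorem aeval_conj' (p : ℝ[X]) (z : ℂ) :
    aeval ((starRingEnd ℂ) z) p = (starRingEnd ℂ) (aeval z p) := by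
  exact aeval_conj p z

theorem upper_to_all (p : ℝ[X]) (h : ∀ z : ℂ, 0 < z.im → aeval z p ≠ 0) : Hyperbolic p := by
  right
  intro z hz
  by_contra hne
  rcases lt_or_gt_of_ne hne with h1 | h1
  · apply h ((starRingEnd ℂ) z) (by simp; linarith)
    rw [aeval_conj', hz, map_zero]
  · exact h z h1 hz

theorem cosD_hyperbolic {p : ℝ[X]} (hp : Hyperbolic p) : Hyperbolic (cosD p) := by
  have hs := splits_of_hyperbolic hp
  by_cases h0 : p = 0
  · left; rw [h0, map_zero]
  apply upper_to_all
  intro z hz h
  rw [aeval_cosD] at h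
  have h1 : aeval (z + Complex.I) p = - aeval (z - Complex.I) p := by
    have h2 : aeval (z + Complex.I) p + aeval (z - Complex.I) p = 0 := by
      have := div_eq_zero_iff.mp h
      rcases this with h | h
      · exact h
      · norm_num at h
    exact eq_neg_of_add_eq_zero_left h2
  have hl : (p.leadingCoeff : ℂ) ≠ 0 := by
    exact_mod_cast leadingCoeff_ne_zero.mpr h0
  rw [aeval_eq_of_splits hs, aeval_eq_of_splits hs, ← mul_neg] at h1
  have h2 := mul_left_cancel₀ hl h1
  have h3 := norm_le_aux p.roots z hz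
  by_cases hr : p.roots = 0
  · rw [hr] at h2
    simp at h2
    norm_num [Complex.ext_iff] at h2
  · have h4 := h3.2 hr
    rw [h2, norm_neg] at h4
    exact lt_irrefl _ h4

theorem im_sum_le (s : Multiset ℝ) (z : ℂ) (hz : 0 < z.im) :
    ((s.map (fun r : ℝ => 1 / (z - (r : ℂ)))).sum).im ≤ 0 := by
  induction s using Multiset.induction_on with
  | empty => simp
  | cons r s ih =>
    rw [Multiset.map_cons, Multiset.sum_cons, Complex.add_im]
    have : (1 / (z - (r : ℂ))).im ≤ 0 := by
      rw [one_div, Complex.inv_im]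
      apply div_nonpos_of_nonpos_of_nonneg
      · simp; linarith
      · exact Complex.normSq_nonneg _
    linarith

theorem X_sub_D_hyperbolic {p : ℝ[X]} (hp : Hyperbolic p) :
    Hyperbolic (X * p - derivative p) := by
  have hs := splits_of_hyperbolic hp
  by_cases h0 : p = 0
  · left; rw [h0]; simp
  apply upper_to_all
  intro z hz h
  have hl : (p.leadingCoeff : ℂ) ≠ 0 := by
    exact_mod_cast leadingCoeff_ne_zero.mpr h0
  have hne : aeval z p ≠ 0 := by
    rw [aeval_eq_of_splits hs]
    apply mul_ne_zero hl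
    apply Multiset.prod_ne_zero
    intro h
    obtain ⟨t, _, ht⟩ := Multiset.mem_map.mp h
    have := congrArg Complex.im ht
    simp at this
    linarith
  rw [map_sub, map_mul, aeval_X] at h
  have hq : (p.map (algebraMap ℝ ℂ)).Splits := hs.map _
  have e1 : (p.map (algebraMap ℝ ℂ)).eval z = aeval z p := by rw [aeval_def, eval_map]
  have e2 : (p.map (algebraMap ℝ ℂ)).derivative.eval z = aeval z (derivative p) := by
    rw [derivative_map, aeval_def, eval_map]
  have h5 := hq.eval_derivative_div_eval_of_ne_zero (x := z) (by rw [e1]; exact hne)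
  rw [e1, e2] at h5
  have h6 : aeval z (derivative p) / aeval z p = z := by
    have : aeval z (derivative p) = z * aeval z p := by linear_combination -h
    rw [this]; field_simp
  rw [h6, hs.roots_map, Multiset.map_map] at h5
  have h7 := im_sum_le p.roots z hz
  have h8 := congrArg Complex.im h5
  simp only [Function.comp_def, Complex.coe_algebraMap] at h8
  linarith

theorem c_zero : c 0 = 1 := by simp [c]

theorem c_even (j : ℕ) : c (2 * j) ≠ 0 := by
  simp only [c, pow_mul, Complex.I_sq]
  have : (((-1 : ℂ)) ^ j).re ≠ 0 := by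
    rcases Nat.even_or_odd j with h | h
    · rw [h.neg_one_pow]; simp
    · rw [h.neg_one_pow]; simp
  exact div_ne_zero this (by exact_mod_cast (2 * j).factorial_ne_zero)

theorem c_one : c 1 = 0 := by simp [c]

theorem cosD_ne_zero {p : ℝ[X]} (hp : p ≠ 0) : cosD p ≠ 0 := by
  intro h
  have h1 := congrArg (fun q => coeff q p.natDegree) h
  simp only [cosD, coeff_zero] at h1
  rw [op_apply _ p (p.natDegree + 1) le_rfl, finsetSum_coeff, Finset.sum_range_succ'] at h1
  rw [Finset.sum_eq_zero] at h1
  · simp [c_zero] at h1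
    exact hp h1
  · intro k _
    rw [coeff_C_mul, coeff_iterate_derivative, coeff_eq_zero_of_natDegree_lt (by omega)]
    simp

theorem op_Q_injective : Function.Injective (op Q) := by
  rw [injective_iff_map_eq_zero]
  intro p hp
  by_contra hne
  have h1 := cosD_ne_zero hne
  rw [T_eq, sub_eq_zero] at hp
  have h2 : (derivative (cosD p)).degree < (cosD p).degree := degree_derivative_lt h1
  rw [← hp, degree_mul, degree_X] at h2
  have h3 : (cosD p).degree = ((cosD p).natDegree : WithBot ℕ) := degree_eq_natDegree h1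
  rw [h3] at h2
  have h4 : ((1 + (cosD p).natDegree : ℕ) : WithBot ℕ) < ((cosD p).natDegree : WithBot ℕ) := by
    push_cast; exact h2
  have h5 : 1 + (cosD p).natDegree < (cosD p).natDegree := by exact_mod_cast h4
  omega

theorem three_le_rank : (3 : Cardinal) ≤ Module.rank ℝ (LinearMap.range (op Q)) := by
  rw [rank_range_of_injective _ op_Q_injective]
  have h : LinearIndependent ℝ (fun i : Fin 3 => (X : ℝ[X]) ^ (i : ℕ)) := by
    have h1 := (Polynomial.basisMonomials ℝ).linearIndependent
    have h2 := h1.comp (fun i : Fin 3 => (i : ℕ)) Fin.val_injective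
    convert h2 using 1
    funext i
    simp [Polynomial.coe_basisMonomials, monomial_one_right_eq_X_pow]
  have := h.cardinal_lift_le_rank
  simpa using this

/-- There is a linear operator on real polynomials, given by a differential operator
`∑ Q_k D^k` of infinite order, which preserves hyperbolicity and has range of dimension at least
three, but for which `deg Q_{k+1} < deg Q_k` for some `k` with `Q_k ≠ 0`. -/
theorem result : ∃ (T : ℝ[X] →ₗ[ℝ] ℝ[X]) (Q : ℕ → ℝ[X]),
    IsSeries T Q ∧ {k | Q k ≠ 0}.Infinite ∧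
    (∀ p, Hyperbolic p → Hyperbolic (T p)) ∧
    (3 : Cardinal) ≤ Module.rank ℝ (LinearMap.range T) ∧
    ∃ k, Q k ≠ 0 ∧ (Q (k + 1)).degree < (Q k).degree := by
  refine ⟨op Q, Q, fun p => rfl, ?_, ?_, three_le_rank, 0, ?_, ?_⟩
  · apply Set.infinite_of_injective_forall_mem (f := fun j : ℕ => 2 * j)
      (fun a b h => by simpa using h)
    intro j
    simp only [Set.mem_ofPred_eq]
    rcases j with _ | j
    · simp [Q, c_zero]
    · intro h
      have h1 := congrArg (fun q => coeff q 1) h
      have h2 : 2 * (j + 1) = (2 * j + 1) + 1 := by ring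
      rw [h2] at h1
      simp only [Q, coeff_sub, coeff_C_mul, coeff_X_one, coeff_zero, mul_one] at h1
      rw [coeff_C_of_ne_zero one_ne_zero, sub_zero, ← h2] at h1
      exact c_even (j + 1) h1
  · intro p hp
    rw [T_eq]
    exact X_sub_D_hyperbolic (cosD_hyperbolic hp)
  · simp [Q, c_zero]
  · simp only [Q, c_zero, zero_add, c_one, C_0, zero_mul, zero_sub, C_1, one_mul, degree_X,
      degree_neg, degree_one]
    exact_mod_cast Nat.zero_lt_one

end Pool.Agent.Results.MP_6bb0fd_an.NotMonotone
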